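import Pool.Agent.K6.H7.UG.Tr

set_option autoImplicit false

/-! # The normal form is not constant; the final statements -/

namespace Pool.Agent.K6.H7.UG

open MvPolynomial

section nf

variable {K : Type} [Field K] {N : ℕ} {M : Finset (Finset (Fin (N + 1)))}
  {a : Finset (Fin (N + 1)) → K}

open Classical in
/-- the value at the indicator vector of an edge -/
theorem eval_edge (hM : ∀ e ∈ M, 2 ≤ e.card) (j : Fin N) :
    eval (fun i => if i = j.castSucc ∨ i = j.succ then (1 : K) else 0) (path K N + blocks M a) =
      1 + if ({j.castSucc, j.succ} : Finset (Fin (N + 1))) ∈ M then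
        a {j.castSucc, j.succ} else 0 := by
  have hne : j.castSucc ≠ j.succ := fun h => by
    have := congrArg Fin.val h
    simp at this
  unfold path blocks
  rw [map_add, map_sum, map_sum]
  congr 1
  · rw [Finset.sum_eq_single j]
    · rw [map_mul, eval_X, eval_X, if_pos (Or.inl rfl), if_pos (Or.inr rfl), mul_one]
    · intro i _ hi
      rw [map_mul, eval_X, eval_X]
      by_cases h1 : i.castSucc = j.castSucc ∨ i.castSucc = j.succ
      · by_cases h2 : i.succ = j.castSucc ∨ i.succ = j.succ
        · exfalso
          rcases h1 with h1 | h1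
          · exact hi (Fin.castSucc_injective _ h1)
          · rcases h2 with h2 | h2
            · have a1 := congrArg Fin.val h1
              have a2 := congrArg Fin.val h2
              simp only [Fin.val_castSucc, Fin.val_succ] at a1 a2
              omega
            · exact hi (Fin.succ_injective _ h2)
        · rw [if_neg h2, mul_zero]
      · rw [if_neg h1, zero_mul]
    · intro h
      exact absurd (Finset.mem_univ j) h
  · by_cases hm : ({j.castSucc, j.succ} : Finset (Fin (N + 1))) ∈ M
    · rw [if_pos hm, Finset.sum_eq_single ({j.castSucc, j.succ} : Finset (Fin (N + 1)))]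
      · rw [map_mul, eval_C, map_prod]
        rw [Finset.prod_eq_one, mul_one]
        intro i hi
        rw [eval_X, if_pos]
        simpa using hi
      · intro e he hne'
        rw [map_mul, map_prod]
        have h1 : ∃ i ∈ e, i ∉ ({j.castSucc, j.succ} : Finset (Fin (N + 1))) := by
          by_contra hc
          push Not at hc
          have h2 : e ⊆ {j.castSucc, j.succ} := hc
          have h3 := hM e he
          have h4 : ({j.castSucc, j.succ} : Finset (Fin (N + 1))).card = 2 :=
            Finset.card_pair hne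
          exact hne' (Finset.eq_of_subset_of_card_le h2 (by omega))
        obtain ⟨i, hi, hi'⟩ := h1
        rw [Finset.prod_eq_zero hi, mul_zero]
        rw [eval_X, if_neg]
        simpa using hi'
      · intro h
        exact absurd hm h
    · rw [if_neg hm]
      refine Finset.sum_eq_zero fun e he => ?_
      rw [map_mul, map_prod]
      have h1 : ∃ i ∈ e, i ∉ ({j.castSucc, j.succ} : Finset (Fin (N + 1))) := by
        by_contra hc
        push Not at hc
        have h2 : e ⊆ {j.castSucc, j.succ} := hc
        have h3 := hM e he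
        have h4 : ({j.castSucc, j.succ} : Finset (Fin (N + 1))).card = 2 :=
          Finset.card_pair hne
        have h5 := Finset.eq_of_subset_of_card_le h2 (by omega)
        exact hm (h5 ▸ he)
      obtain ⟨i, hi, hi'⟩ := h1
      rw [Finset.prod_eq_zero hi, mul_zero]
      rw [eval_X, if_neg]
      simpa using hi'

theorem nf_ne' (hN : 2 ≤ N) (hM : ∀ e ∈ M, 2 ≤ e.card)
    (hd : (M : Set (Finset (Fin (N + 1)))).PairwiseDisjoint id) : path K N + blocks M a ≠ 0 := by
  classical
  intro h
  have h0 := eval_edge (a := a) hM ⟨0, by omega⟩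
  have h1 := eval_edge (a := a) hM ⟨1, by omega⟩
  rw [h, map_zero] at h0 h1
  have hm0 : ({(⟨0, by omega⟩ : Fin N).castSucc, (⟨0, by omega⟩ : Fin N).succ} :
      Finset (Fin (N + 1))) ∈ M := by
    by_contra hc
    rw [if_neg hc, add_zero] at h0
    exact zero_ne_one h0
  have hm1 : ({(⟨1, by omega⟩ : Fin N).castSucc, (⟨1, by omega⟩ : Fin N).succ} :
      Finset (Fin (N + 1))) ∈ M := by
    by_contra hc
    rw [if_neg hc, add_zero] at h1
    exact zero_ne_one h1
  have hne : ({(⟨0, by omega⟩ : Fin N).castSucc, (⟨0, by omega⟩ : Fin N).succ} :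
      Finset (Fin (N + 1))) ≠ {(⟨1, by omega⟩ : Fin N).castSucc, (⟨1, by omega⟩ : Fin N).succ} := by
    intro he
    have h2 : (⟨0, by omega⟩ : Fin N).castSucc ∈
        ({(⟨1, by omega⟩ : Fin N).castSucc, (⟨1, by omega⟩ : Fin N).succ} :
          Finset (Fin (N + 1))) := by
      rw [← he]
      exact Finset.mem_insert_self _ _
    rw [Finset.mem_insert, Finset.mem_singleton] at h2
    rcases h2 with h2 | h2
    · have := congrArg Fin.val h2
      simp at this
    · have := congrArg Fin.val h2
      simp at this
  have h3 := hd hm0 hm1 hne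
  have h4 : (⟨0, by omega⟩ : Fin N).succ = (⟨1, by omega⟩ : Fin N).castSucc := by
    apply Fin.ext
    simp
  refine (Finset.disjoint_left.1 h3 : ∀ ⦃x⦄, x ∈ _ → x ∉ _)
    (show (⟨0, by omega⟩ : Fin N).succ ∈ _ from ?_) ?_
  · change _ ∈ ({(⟨0, by omega⟩ : Fin N).castSucc, (⟨0, by omega⟩ : Fin N).succ} :
      Finset (Fin (N + 1)))
    simp
  · change _ ∈ ({(⟨1, by omega⟩ : Fin N).castSucc, (⟨1, by omega⟩ : Fin N).succ} :
      Finset (Fin (N + 1)))
    rw [h4]
    simp

/-- **The normal form is not constant.** -/
theorem nf_ne (hN : 2 ≤ N) (h : Adm M a) (a₀ c : K) :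
    path K N + (C a₀ + blocks M a) ≠ C c := by
  classical
  intro heq
  -- the value at zero
  have e0 : ∀ v : Fin (N + 1) → K, (∀ i j, i ≠ j → v i * v j = 0) →
      eval v (path K N) = 0 := by
    intro v hv
    unfold path
    rw [map_sum]
    refine Finset.sum_eq_zero fun i _ => ?_
    rw [map_mul, eval_X, eval_X]
    refine hv _ _ fun hi => ?_
    have := congrArg Fin.val hi
    simp at this
  have h0 := congrArg (eval fun _ => (0 : K)) heq
  have hb0 : eval (fun _ => (0 : K)) (blocks M a) = 0 := by
    unfold blocks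
    rw [map_sum]
    refine Finset.sum_eq_zero fun e he => ?_
    rw [map_mul, map_prod]
    simp only [eval_X, Finset.prod_const]
    rw [zero_pow (by have := (h.1 e he).1; omega), mul_zero]
  rw [map_add, map_add, e0 _ (fun _ _ _ => mul_zero _), hb0, eval_C, eval_C, zero_add, add_zero]
    at h0
  -- no singletons
  have hs : ∀ e ∈ M, 2 ≤ e.card := by
    intro e he
    by_contra hc
    have h1 : e.card = 1 := by have := (h.1 e he).1; omega
    obtain ⟨i, rfl⟩ := Finset.card_eq_one.1 h1
    have h2 := congrArg (eval fun j => if j = i then (1 : K) else 0) heq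
    have hb : eval (fun j => if j = i then (1 : K) else 0) (blocks M a) = a {i} := by
      unfold blocks
      rw [map_sum, Finset.sum_eq_single ({i} : Finset (Fin (N + 1)))]
      · simp
      · intro e' he' hne
        rw [map_mul, map_prod]
        have h3 : ∃ j ∈ e', j ≠ i := by
          by_contra hcc
          push Not at hcc
          have h4 : e' ⊆ {i} := fun j hj => Finset.mem_singleton.2 (hcc j hj)
          have h5 := Finset.eq_of_subset_of_card_le h4 (by
            rw [Finset.card_singleton]
            exact (h.1 e' he').1)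
          exact hne h5
        obtain ⟨j, hj, hji⟩ := h3
        rw [Finset.prod_eq_zero hj, mul_zero]
        rw [eval_X, if_neg hji]
      · intro hh
        exact absurd he hh
    rw [map_add, map_add, e0, hb, eval_C, eval_C, zero_add] at h2
    · rw [h0] at h2
      exact (h.1 _ he).2.2 (by linear_combination h2)
    · intro j j' hne
      by_cases hj : j = i
      · have hj' : ¬ j' = i := fun hj' => hne (hj.trans hj'.symm)
        simp [hj']
      · simp [hj]
  refine nf_ne' (a := a) hN hs h.2 ?_
  rw [h0] at heq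
  have : path K N + blocks M a = path K N + (C c + blocks M a) - C c := by ring
  rw [this, heq, sub_self]

theorem deg_nf (hN : 2 ≤ N) (h : Adm M a) (a₀ : K) :
    (path K N + (C a₀ + blocks M a)).totalDegree ≠ 0 := by
  intro hd
  exact nf_ne hN h a₀ _ (totalDegree_eq_zero_iff_eq_C.1 hd)

end nf

section final

variable {k : Type} [Field k] [Algebra k ℂ]

/-- **Transfer of a property.** -/
theorem transfer (P : ∀ {n : ℕ}, MvPolynomial (Fin n) k → Prop)
    (hiso : ∀ {n m : ℕ} {f : MvPolynomial (Fin n) k}, P f → n = m →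
      ∀ φ : MvPolynomial (Fin n) k ≃ₐ[k] MvPolynomial (Fin m) k, P (φ f))
    (hstep : ∀ {n : ℕ} {f : MvPolynomial (Fin n) k}, f.totalDegree ≠ 0 → P (Pool.Agent.Y229.MS.addyz f) →
      P (Pool.Agent.Y229.MS.addyz (Pool.Agent.Y229.MS.addyz f)) → P f) :
    (∀ (N : ℕ) (a₀ : k) (M : Finset (Finset (Fin (N + 1)))) (a : Finset (Fin (N + 1)) → k),
        3 ≤ N → Adm M a → P (path k N + (C a₀ + blocks M a))) ↔
      ∀ (n : ℕ) (f : MvPolynomial (Fin n) k), (∀ c : k, f ≠ C c) → P f := by
  constructor
  · intro h n f hf
    have hf' : f.totalDegree ≠ 0 := fun hd => hf _ (totalDegree_eq_zero_iff_eq_C.1 hd)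
    obtain ⟨N, a₀, M, a, j, hj, hM, hr⟩ := exists_nf f
    obtain ⟨M', a', hM', hr'⟩ := nf_ext hM hr
    have hc := hr.card
    exact descend (fun {n} => P (n := n)) hiso hstep hf' hr hr' (h N a₀ M a (by omega) hM)
      (h (N + 2) a₀ M' a' (by omega) hM')
  · intro h N a₀ M a hN hM
    exact h _ _ fun c => nf_ne (by omega) hM a₀ c

/-- the refined conjecture implies the original form -/
theorem RC.full {n : ℕ} {f : MvPolynomial (Fin n) k} (hf : f.totalDegree ≠ 0) (h : RC f) :
    ∃ S : Finset (ℤ × ℤ), (∀ p ∈ S, 0 < p.2 ∧ ∀ b : Polynomial ℂ,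
      Pool.Agent.H628R4.TP.IsBFunction (map (algebraMap k ℂ) f) b →
        b.eval ((p.1 : ℂ) / p.2) = 0) ∧
      ∀ (K : Type) [Field K] [Algebra k K] (W : Set (Pool.Agent.W428.MOT.Pt K (Fin n)))
        (E : Set (AlgebraicClosure K)), Pool.Agent.W428.MOT.Constr W →
        Pool.Agent.W375.MG.Good E →
        Pool.Agent.W375.MG.zetaG (map (algebraMap k K) f) W E ∈
          Pool.Agent.W428.MOT.ratRing K S := by
  classical
  obtain ⟨S, h1, h2⟩ := h
  refine ⟨insert (-1, 1) S, fun p hp => ?_, fun K _ _ W E hW hE => ?_⟩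
  · rcases Finset.mem_insert.1 hp with rfl | hp
    · refine ⟨one_pos, fun b hb => ?_⟩
      have h6 : (((-1 : ℤ) : ℂ) / ((1 : ℤ) : ℂ)) = -1 := by norm_num
      simp only [h6]
      exact bf_neg_one hf hb
    · refine ⟨(h1 p hp).1, fun b hb => ?_⟩
      have h5 := bf_neg_one hf hb
      obtain ⟨c', hc'⟩ : (Polynomial.X + 1 : Polynomial ℂ) ∣ b := by
        have := Polynomial.dvd_iff_isRoot.2 h5
        simpa using this
      have h6 := (h1 p hp).2 c' (hc' ▸ hb)
      rw [hc', Polynomial.eval_mul, h6, mul_zero]
  · have h3 := Pool.Agent.Y229.MS.zeta_of_fst (map (algebraMap k K) f) W E _ (h2 K W E hW hE)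
    rw [Finset.coe_insert]
    exact h3

end final

end Pool.Agent.K6.H7.UG
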