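import Pool.Agent.K6.H7.UG.Nf
import Pool.Agent.K6.H7.SC.Alg
import Pool.Agent.N101.CB.Main
import Pool.Agent.Y229.MS.Main
import Pool.Agent.Y366.MS.OneA
import Pool.Agent.Y971.MS.One
import Pool.Agent.Y812.MS.Two
import Pool.Agent.Z864.MS.Three
import Pool.Agent.Y405.MS.Aut

set_option autoImplicit false
set_option linter.unusedSectionVars false

/-! # Transfer of the refined motivic conjecture along stable equivalence -/

namespace Pool.Agent.K6.H7.UG

open MvPolynomial Pool.Agent.W428.MOT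
open Pool.Agent.N101.CB (stp stp_deg bg)
open Pool.Agent.W375.MG (zetaG Good ratRing_mono)
open Pool.Agent.Y229.MS (addyz Wyz itr shn fst' ce_good zeta_iso constr_Wyz shn_pos step)
open Pool.Agent.H628R4.TP (IsBFunction)

variable {k : Type} [Field k] [Algebra k ℂ] {n m : ℕ}

/-- the zeta functions are in the ring of `S`, up to the factor of the strict transform -/
def InR (f : MvPolynomial (Fin n) k) (S : Set (ℤ × ℤ)) : Prop :=
  ∀ (K : Type) [Field K] [Algebra k K] (W : Set (Pt K (Fin n))) (E : Set (AlgebraicClosure K)),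
    Constr W → Good E → fst' K * zetaG (map (algebraMap k K) f) W E ∈ ratRing K S

/-- the refined conjecture -/
def RC (f : MvPolynomial (Fin n) k) : Prop :=
  ∃ S : Finset (ℤ × ℤ), (∀ p ∈ S, 0 < p.2 ∧ ∀ c : Polynomial ℂ,
    IsBFunction (map (algebraMap k ℂ) f) ((Polynomial.X + 1) * c) →
      c.eval ((p.1 : ℂ) / p.2) = 0) ∧ InR f S

/-- the pairs `(a, b)`, `b > 0`, with `a / b ≠ s` -/
def off (s : ℚ) : Set (ℤ × ℤ) := {p | 0 < p.2 ∧ (p.1 : ℚ) / p.2 ≠ s}

/-- the refined conjecture for the poles -/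
def PC (f : MvPolynomial (Fin n) k) : Prop :=
  ∀ (s : ℚ) (c : Polynomial ℂ), IsBFunction (map (algebraMap k ℂ) f) ((Polynomial.X + 1) * c) →
    c.eval (s : ℂ) ≠ 0 → InR f (off s)

theorem stp_zero (f : MvPolynomial (Fin n) k) : stp f 0 0 = addyz f := by
  unfold stp addyz
  rw [map_zero, add_zero, sub_zero]

theorem map_addyz {K : Type} [Field K] (g : k →+* K) (f : MvPolynomial (Fin n) k) :
    map g (addyz f) = addyz (map g f) := by
  unfold addyz
  rw [map_add, map_mul, map_X, map_X, map_rename]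

theorem InR.mono {f : MvPolynomial (Fin n) k} {S T : Set (ℤ × ℤ)} (h : InR f S) (hST : S ⊆ T) :
    InR f T := fun K _ _ W E hW hE => ratRing_mono hST (h K W E hW hE)

theorem InR.iso {f : MvPolynomial (Fin n) k} {S : Set (ℤ × ℤ)} (h : InR f S) (hnm : n = m)
    (φ : MvPolynomial (Fin n) k ≃ₐ[k] MvPolynomial (Fin m) k) : InR (φ f) S := by
  intro K _ _ W E hW hE
  have hk : CharZero k := RingHom.charZero (algebraMap k ℂ)
  have hK : CharZero K := charZero_of_injective_algebraMap (algebraMap k K).injective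
  obtain ⟨ψ, hψ⟩ := Pool.Agent.Y405.MS.bc k K φ
  rw [← hψ]
  have h1 := zeta_iso Pool.Agent.Z864.MS.three hnm.symm ψ.symm (ψ (map (algebraMap k K) f)) hW
    (ce_good hE)
  rw [ψ.symm_apply_apply] at h1
  rw [← h1]
  exact h K _ E (hW.preimage (fun w i => aeval w (ψ.symm (X i))) fun i => IsPF.poly _) hE

theorem InR.step {f : MvPolynomial (Fin n) k} {S1 S2 : Set (ℤ × ℤ)} (h1 : InR (addyz f) S1)
    (h2 : InR (addyz (addyz f)) S2) (hS1 : ∀ p ∈ S1, 0 < p.2) (hS2 : ∀ p ∈ S2, 0 < p.2) :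
    InR f (shn 1 S1 ∪ shn 1 (shn 1 S2)) := by
  intro K _ _ W E hW hE
  have hk : CharZero k := RingHom.charZero (algebraMap k ℂ)
  have hK : CharZero K := charZero_of_injective_algebraMap (algebraMap k K).injective
  have a1 := h1 K (Wyz W) E (constr_Wyz hW) hE
  have a2 := h2 K (Wyz (Wyz W)) E (constr_Wyz (constr_Wyz hW)) hE
  rw [map_addyz] at a1
  rw [map_addyz, map_addyz] at a2
  exact Pool.Agent.Y229.MS.step (Pool.Agent.Y971.MS.one Pool.Agent.Y366.MS.onea)
    Pool.Agent.Y812.MS.two (map (algebraMap k K) f) hW (ce_good hE) hS1 hS2 a1 a2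

theorem bf_addyz {f : MvPolynomial (Fin n) k} (hf : f.totalDegree ≠ 0) {c : Polynomial ℂ}
    (h : IsBFunction (map (algebraMap k ℂ) f) ((Polynomial.X + 1) * c)) :
    IsBFunction (map (algebraMap k ℂ) (addyz f))
      ((Polynomial.X + 1) * c.comp (Polynomial.X + 1)) := by
  have hf' : (map (algebraMap k ℂ) f).totalDegree ≠ 0 := by
    rw [totalDegree, support_map_of_injective _ (algebraMap k ℂ).injective]
    exact hf
  have h1 := (bg (map (algebraMap k ℂ) f) 0 0 hf' _ h).2 c rfl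
  rw [stp_zero (k := ℂ), ← map_addyz] at h1
  exact h1

theorem bf_neg_one {f : MvPolynomial (Fin n) k} (hf : f.totalDegree ≠ 0) {b : Polynomial ℂ}
    (h : IsBFunction (map (algebraMap k ℂ) f) b) : b.eval (-1) = 0 := by
  have hf' : (map (algebraMap k ℂ) f).totalDegree ≠ 0 := by
    rw [totalDegree, support_map_of_injective _ (algebraMap k ℂ).injective]
    exact hf
  exact (bg (map (algebraMap k ℂ) f) 0 0 hf' _ h).1

theorem bf_iso {f : MvPolynomial (Fin n) k} (φ : MvPolynomial (Fin n) k ≃ₐ[k] MvPolynomial (Fin m) k)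
    {b : Polynomial ℂ} (h : IsBFunction (map (algebraMap k ℂ) (φ f)) b) :
    IsBFunction (map (algebraMap k ℂ) f) b := by
  obtain ⟨ψ, hψ⟩ := Pool.Agent.Y405.MS.bc k ℂ φ
  rw [← hψ] at h
  have h1 := Pool.Agent.K6.H7.SC.bfun_iso ψ.symm _ b h
  rwa [ψ.symm_apply_apply] at h1

theorem RC.iso {f : MvPolynomial (Fin n) k} (h : RC f) (hnm : n = m)
    (φ : MvPolynomial (Fin n) k ≃ₐ[k] MvPolynomial (Fin m) k) : RC (φ f) := by
  obtain ⟨S, h1, h2⟩ := h
  exact ⟨S, fun p hp => ⟨(h1 p hp).1, fun c hc => (h1 p hp).2 c (bf_iso φ hc)⟩, h2.iso hnm φ⟩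

theorem PC.iso {f : MvPolynomial (Fin n) k} (h : PC f) (hnm : n = m)
    (φ : MvPolynomial (Fin n) k ≃ₐ[k] MvPolynomial (Fin m) k) : PC (φ f) :=
  fun s c hc hs => (h s c (bf_iso φ hc) hs).iso hnm φ

theorem RC.step {f : MvPolynomial (Fin n) k} (hf : f.totalDegree ≠ 0) (h1 : RC (addyz f))
    (h2 : RC (addyz (addyz f))) : RC f := by
  classical
  obtain ⟨S1, a1, b1⟩ := h1
  obtain ⟨S2, a2, b2⟩ := h2
  have hf1 : (addyz f).totalDegree ≠ 0 := by
    rw [← stp_zero]
    exact stp_deg f 0 0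
  refine ⟨S1.image (fun q => (q.1 + q.2, q.2)) ∪ S2.image (fun q => (q.1 + 2 * q.2, q.2)), ?_, ?_⟩
  · intro p hp
    rw [Finset.mem_union] at hp
    rcases hp with hp | hp
    · obtain ⟨q, hq, rfl⟩ := Finset.mem_image.1 hp
      obtain ⟨h3, h4⟩ := a1 q hq
      refine ⟨h3, fun c hc => ?_⟩
      have h5 := h4 _ (bf_addyz hf hc)
      rw [Polynomial.eval_comp, Polynomial.eval_add, Polynomial.eval_X, Polynomial.eval_one] at h5
      have h6 : ((q.1 + q.2 : ℤ) : ℂ) / (q.2 : ℂ) = (q.1 : ℂ) / q.2 + 1 := by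
        have h7 : (q.2 : ℂ) ≠ 0 := by exact_mod_cast h3.ne'
        push_cast
        field_simp
      change c.eval (((q.1 + q.2 : ℤ) : ℂ) / (q.2 : ℂ)) = 0
      rw [h6]
      exact h5
    · obtain ⟨q, hq, rfl⟩ := Finset.mem_image.1 hp
      obtain ⟨h3, h4⟩ := a2 q hq
      refine ⟨h3, fun c hc => ?_⟩
      have h5 := h4 _ (bf_addyz hf1 (bf_addyz hf hc))
      rw [Polynomial.eval_comp, Polynomial.eval_comp, Polynomial.eval_add, Polynomial.eval_X,
        Polynomial.eval_one, Polynomial.eval_add, Polynomial.eval_X, Polynomial.eval_one] at h5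
      have h6 : ((q.1 + 2 * q.2 : ℤ) : ℂ) / (q.2 : ℂ) = (q.1 : ℂ) / q.2 + 1 + 1 := by
        have h7 : (q.2 : ℂ) ≠ 0 := by exact_mod_cast h3.ne'
        push_cast
        field_simp
        ring
      change c.eval (((q.1 + 2 * q.2 : ℤ) : ℂ) / (q.2 : ℂ)) = 0
      rw [h6]
      exact h5
  · refine (b1.step b2 (fun p hp => (a1 p hp).1) (fun p hp => (a2 p hp).1)).mono ?_
    rintro p (⟨q, hq, rfl⟩ | ⟨q, ⟨q', hq', rfl⟩, rfl⟩)
    · rw [Finset.mem_coe, Finset.mem_union]
      left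
      refine Finset.mem_image.2 ⟨q, hq, ?_⟩
      push_cast
      rw [one_mul]
    · rw [Finset.mem_coe, Finset.mem_union]
      right
      refine Finset.mem_image.2 ⟨q', hq', ?_⟩
      push_cast
      rw [Prod.mk.injEq]
      exact ⟨by ring, rfl⟩

theorem PC.step {f : MvPolynomial (Fin n) k} (hf : f.totalDegree ≠ 0) (h1 : PC (addyz f))
    (h2 : PC (addyz (addyz f))) : PC f := by
  intro s c hc hs
  have hf1 : (addyz f).totalDegree ≠ 0 := by
    rw [← stp_zero]
    exact stp_deg f 0 0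
  have c1 := bf_addyz hf hc
  have c2 := bf_addyz hf1 c1
  have b1 := h1 (s - 1) _ c1 (by
    rw [Polynomial.eval_comp, Polynomial.eval_add, Polynomial.eval_X, Polynomial.eval_one]
    push_cast
    rwa [sub_add_cancel])
  have b2 := h2 (s - 2) _ c2 (by
    rw [Polynomial.eval_comp, Polynomial.eval_comp, Polynomial.eval_add, Polynomial.eval_X,
      Polynomial.eval_one, Polynomial.eval_add, Polynomial.eval_X, Polynomial.eval_one]
    push_cast
    have : (s : ℂ) - 2 + 1 + 1 = s := by ring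
    rwa [this])
  refine (b1.step b2 (fun p hp => hp.1) (fun p hp => hp.1)).mono ?_
  rintro p (⟨q, ⟨hq1, hq2⟩, rfl⟩ | ⟨q, ⟨q', ⟨hq1, hq2⟩, rfl⟩, rfl⟩)
  · refine ⟨hq1, fun h => hq2 ?_⟩
    have h7 : (q.2 : ℚ) ≠ 0 := by exact_mod_cast hq1.ne'
    push_cast at h
    field_simp at h ⊢
    linarith
  · refine ⟨hq1, fun h => hq2 ?_⟩
    have h7 : (q'.2 : ℚ) ≠ 0 := by exact_mod_cast hq1.ne'
    push_cast at h
    field_simp at h ⊢
    linarith

theorem itr_deg {f : MvPolynomial (Fin n) k} (hf : f.totalDegree ≠ 0) :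
    ∀ j, (itr f j).totalDegree ≠ 0
  | 0 => hf
  | j + 1 => by
    change (addyz (itr f j)).totalDegree ≠ 0
    rw [← stp_zero]
    exact stp_deg _ 0 0

theorem rep_itr (f : MvPolynomial (Fin n) k) : ∀ j, Rep f (itr f j) j
  | 0 => Rep.refl f
  | j + 1 => by
    have h1 := rep_stp (itr f j) 0 0
    rw [stp_zero] at h1
    exact (rep_itr f j).trans h1

theorem Rep.card {K : Type} [CommRing K] {f : MvPolynomial (Fin n) K}
    {F : MvPolynomial (Fin m) K} {k : ℕ} (h : Rep f F k) : m = n + 2 * k := by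
  obtain ⟨κ', hκ', e, -, h5, -⟩ := h
  have h6 := Fintype.card_congr e
  rw [Fintype.card_fin, Fintype.card_sum, Fintype.card_sum, Fintype.card_fin, h5] at h6
  omega

theorem exists_iso {f : MvPolynomial (Fin n) k} {F : MvPolynomial (Fin m) k} {j : ℕ}
    (h : Rep f F j) : ∃ φ : MvPolynomial (Fin m) k ≃ₐ[k] MvPolynomial (Fin (n + 2 * j)) k,
      φ F = itr f j :=
  h.unique (rep_itr f j)

/-- **Descent.** -/
theorem descend (P : ∀ {n : ℕ}, MvPolynomial (Fin n) k → Prop)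
    (hiso : ∀ {n m : ℕ} {f : MvPolynomial (Fin n) k}, P f → n = m →
      ∀ φ : MvPolynomial (Fin n) k ≃ₐ[k] MvPolynomial (Fin m) k, P (φ f))
    (hstep : ∀ {n : ℕ} {f : MvPolynomial (Fin n) k}, f.totalDegree ≠ 0 → P (addyz f) →
      P (addyz (addyz f)) → P f)
    {f : MvPolynomial (Fin n) k} (hf : f.totalDegree ≠ 0) {m' : ℕ} {F : MvPolynomial (Fin m) k}
    {F' : MvPolynomial (Fin m') k} {j : ℕ} (h : Rep f F j) (h' : Rep f F' (j + 1)) (hF : P F)
    (hF' : P F') : P f := by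
  have key : ∀ i : ℕ, P (itr f i) → P (itr f (i + 1)) → P f := by
    intro i
    induction i with
    | zero => exact fun h _ => h
    | succ i ih => exact fun h1 h2 => ih (hstep (itr_deg hf i) h1 h2) h1
  obtain ⟨φ, hφ⟩ := exists_iso h
  obtain ⟨φ', hφ'⟩ := exists_iso h'
  refine key j ?_ ?_
  · rw [← hφ]
    exact hiso hF h.card φ
  · rw [← hφ']
    exact hiso hF' h'.card φ'

end Pool.Agent.K6.H7.UG
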