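import Pool.Agent.K6.H7.UG.Ch

set_option autoImplicit false
set_option linter.unusedSectionVars false

/-! # The normal form: a path plus disjoint blocks, over a field -/

namespace Pool.Agent.K6.H7.UG

open MvPolynomial Pool.Agent.N165.CU Pool.Agent.N101.CB

/-- The polynomial `x_0 x_1 + x_1 x_2 + ⋯ + x_{n - 1} x_n`. -/
noncomputable def path (K : Type) [CommRing K] (n : ℕ) : MvPolynomial (Fin (n + 1)) K :=
  ∑ i : Fin n, X i.castSucc * X i.succ

/-- The polynomial `∑_{e ∈ M} a_e ∏_{i ∈ e} x_i`. -/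
noncomputable def blocks {K : Type} [CommRing K] {V : Type} (M : Finset (Finset V))
    (a : Finset V → K) : MvPolynomial V K :=
  ∑ e ∈ M, C (a e) * ∏ i ∈ e, X i

/-- pairwise disjoint sets with one, two or three elements, and nonzero coefficients -/
def Adm {K : Type} [CommRing K] {V : Type} (M : Finset (Finset V)) (a : Finset V → K) : Prop :=
  (∀ e ∈ M, 1 ≤ e.card ∧ e.card ≤ 3 ∧ a e ≠ 0) ∧ (M : Set (Finset V)).PairwiseDisjoint id

section field

variable {K : Type} [Field K]

/-- disjoint blocks as a set of sets -/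
theorem exists_blocks {α Λ : Type} [Fintype Λ] (S : Λ → Type) [∀ x, Fintype (S x)]
    (τ : (Σ x, S x) → α) (hτ : Function.Injective τ) (a : Λ → K) (ha : ∀ x, a x ≠ 0)
    (hS : ∀ x, 1 ≤ Fintype.card (S x) ∧ Fintype.card (S x) ≤ 3) :
    ∃ (M : Finset (Finset α)) (c : Finset α → K), Adm M c ∧
      blocks M c = ∑ x, C (a x) * ∏ y : S x, X (τ ⟨x, y⟩) := by
  classical
  set b : Λ → Finset α := fun x => Finset.univ.image fun y : S x => τ ⟨x, y⟩ with hb
  have hinj : ∀ x, Function.Injective fun y : S x => τ ⟨x, y⟩ := by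
    intro x y y' h
    have h1 := hτ h
    simpa using h1
  have hcard : ∀ x, (b x).card = Fintype.card (S x) := by
    intro x
    rw [hb]
    beta_reduce
    rw [Finset.card_image_of_injective _ (hinj x), Finset.card_univ]
  have hdis : ∀ x x', x ≠ x' → Disjoint (b x) (b x') := by
    intro x x' hx
    rw [Finset.disjoint_left]
    intro a ha ha'
    obtain ⟨y, -, rfl⟩ := Finset.mem_image.1 ha
    obtain ⟨y', -, h⟩ := Finset.mem_image.1 ha'
    have h1 := congrArg Sigma.fst (hτ h)
    exact hx h1.symm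
  have hbinj : Function.Injective b := by
    intro x x' h
    by_contra hne
    have h1 := hdis x x' hne
    rw [← h, Finset.disjoint_self_iff_empty] at h1
    have h2 := hcard x
    rw [h1, Finset.card_empty] at h2
    have h3 := (hS x).1
    omega
  set c : Finset α → K := fun e => if h : ∃ x, b x = e then a h.choose else 0 with hc
  have hcb : ∀ x, c (b x) = a x := by
    intro x
    have h : ∃ x', b x' = b x := ⟨x, rfl⟩
    rw [hc]
    beta_reduce
    rw [dif_pos h, hbinj h.choose_spec]
  refine ⟨Finset.univ.image b, c, ⟨?_, ?_⟩, ?_⟩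
  · intro e he
    obtain ⟨x, -, rfl⟩ := Finset.mem_image.1 he
    rw [hcard, hcb]
    exact ⟨(hS x).1, (hS x).2, ha x⟩
  · intro e he e' he' hne
    obtain ⟨x, -, rfl⟩ := Finset.mem_image.1 (Finset.mem_coe.1 he)
    obtain ⟨x', -, rfl⟩ := Finset.mem_image.1 (Finset.mem_coe.1 he')
    exact hdis x x' fun h => hne (h ▸ rfl)
  · unfold blocks
    rw [Finset.sum_image fun x _ x' _ h => hbinj h]
    refine Finset.sum_congr rfl fun x _ => ?_
    rw [hcb]
    congr 1
    rw [hb]
    beta_reduce
    rw [Finset.prod_image fun y _ y' _ h => hinj x h]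

/-- renaming of the blocks -/
theorem blocks_rename {V V' : Type} (g : V → V') (hg : Function.Injective g)
    (M : Finset (Finset V)) (a : Finset V → K) (h : Adm M a) :
    ∃ (M' : Finset (Finset V')) (a' : Finset V' → K), Adm M' a' ∧
      blocks M' a' = rename g (blocks M a) := by
  classical
  obtain ⟨M', a', h1, h2⟩ := exists_blocks (K := K) (α := V') (Λ := {e // e ∈ M})
    (fun e => {i // i ∈ e.1}) (fun x => g x.2.1) (by
      rintro ⟨⟨e, he⟩, ⟨i, hi⟩⟩ ⟨⟨e', he'⟩, ⟨i', hi'⟩⟩ hx
      have h3 : i = i' := hg hx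
      subst h3
      have h4 : e = e' := by
        by_contra hne
        exact Finset.disjoint_left.1 (h.2 he he' hne) hi hi'
      subst h4
      rfl) (fun e => a e.1) (fun e => (h.1 e.1 e.2).2.2) (fun e => by
        have h5 := h.1 e.1 e.2
        rw [Fintype.card_coe]
        exact ⟨h5.1, h5.2.1⟩)
  refine ⟨M', a', h1, ?_⟩
  rw [h2]
  unfold blocks
  rw [map_sum, ← Finset.sum_coe_sort M fun e => rename g (C (a e) * ∏ i ∈ e, X i)]
  refine Finset.sum_congr rfl fun e _ => ?_
  rw [map_mul, map_prod, rename_C, ← Finset.prod_coe_sort e.1 fun i => rename g (X i)]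
  congr 1
  refine Finset.prod_congr rfl fun i _ => ?_
  rw [rename_X]

/-- **A longer path.** -/
theorem path_ext {β : Type} {c : MvPolynomial β K} {N : ℕ} {G : MvPolynomial (Fin (N + 1)) K}
    {k : ℕ} (h : Rep c (path K N + G) k) :
    Rep c (path K (N + 2) + rename (Fin.castLE (by omega)) G) (k + 1) := by
  have h1 := (h.plane (Fin 1)).auto
    (shrE (Sum.elim (fun _ : Fin 1 => (0 : MvPolynomial (Fin (N + 1)) K))
      fun _ : Fin 1 => X (Fin.last N)))
  rw [Fintype.card_fin] at h1
  have h2 : shrE (Sum.elim (fun _ : Fin 1 => (0 : MvPolynomial (Fin (N + 1)) K))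
      fun _ : Fin 1 => X (Fin.last N)) (quad (path K N + G) (Fin 1)) =
      rename Sum.inl (path K N + G) + X (Sum.inr (Sum.inl 0)) *
        (X (Sum.inr (Sum.inr 0)) + X (Sum.inl (Fin.last N))) := by
    change shrH _ _ = _
    unfold quad
    rw [Fin.sum_univ_one, map_add, map_mul, shrH_rename, shrH_r, shrH_r, Sum.elim_inl,
      Sum.elim_inr, map_zero, add_zero, rename_X]
  rw [h2] at h1
  set E : Fin (N + 1) ⊕ (Fin 1 ⊕ Fin 1) ≃ Fin (N + 2 + 1) :=
    (Equiv.sumCongr (Equiv.refl (Fin (N + 1))) finSumFinEquiv).trans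
      (finSumFinEquiv.trans (finCongr (by omega))) with hE
  have h3 := h1.rn E
  have hl : ∀ i : Fin (N + 1), E (Sum.inl i) = Fin.castLE (by omega) i := by
    intro i
    apply Fin.ext
    simp [hE]
  have hu : E (Sum.inr (Sum.inl 0)) = (Fin.last (N + 1)).castSucc := by
    apply Fin.ext
    rfl
  have hv : E (Sum.inr (Sum.inr 0)) = Fin.last (N + 2) := by
    apply Fin.ext
    rfl
  have h4 : rename E (rename Sum.inl (path K N + G) + X (Sum.inr (Sum.inl 0)) *
        (X (Sum.inr (Sum.inr 0)) + X (Sum.inl (Fin.last N)))) =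
      path K (N + 2) + rename (Fin.castLE (by omega)) G := by
    have h5 : (E ∘ Sum.inl : Fin (N + 1) → Fin (N + 2 + 1)) = Fin.castLE (by omega) :=
      funext hl
    have h7 : rename E (rename Sum.inl (path K N + G)) =
        rename (Fin.castLE (by omega : N + 1 ≤ N + 2 + 1)) (path K N) +
          rename (Fin.castLE (by omega : N + 1 ≤ N + 2 + 1)) G := by
      rw [rename_rename, h5, map_add]
    rw [map_add, h7, map_mul, map_add, rename_X, rename_X, rename_X, hl, hu, hv]
    have h6 : path K (N + 2) = rename (Fin.castLE (by omega)) (path K N) +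
        X (Fin.last (N + 1)).castSucc * (X (Fin.last (N + 2)) +
          X (Fin.castLE (by omega) (Fin.last N))) := by
      unfold path
      rw [Fin.sum_univ_castSucc, Fin.sum_univ_castSucc, map_sum]
      have e1 : ∀ i : Fin N, rename (Fin.castLE (by omega : N + 1 ≤ N + 2 + 1))
          (X i.castSucc * X i.succ : MvPolynomial (Fin (N + 1)) K) =
          X i.castSucc.castSucc.castSucc * X i.castSucc.castSucc.succ := by
        intro i
        rw [map_mul, rename_X, rename_X]
        rfl
      rw [Finset.sum_congr rfl fun i _ => e1 i]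
      have e2 : (Fin.castLE (by omega) (Fin.last N) : Fin (N + 2 + 1)) =
          (Fin.last N).castSucc.castSucc := rfl
      have e3 : (Fin.last N).castSucc.succ = (Fin.last (N + 1)).castSucc := by
        apply Fin.ext
        simp
      have e4 : (Fin.last (N + 1)).succ = Fin.last (N + 2) := rfl
      rw [e2, e3, e4]
      ring
    rw [h6]
    ring
  rw [h4] at h3
  exact h3

variable {W : Type} (F : MvPolynomial W K)

/-- the occurrences of the variables in the monomials of `F` -/
abbrev Occ : Type := Σ x : F.support, {i // i ∈ (x.1 : W →₀ ℕ).support}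

/-- the sum of the monomials of `F` in disjoint sets of variables -/
noncomputable def disj : MvPolynomial (Occ F) K :=
  ∑ x : F.support, C (coeff x.1 F) * ∏ w : {i // i ∈ (x.1 : W →₀ ℕ).support}, X ⟨x, w⟩

variable {F}

theorem rename_disj (h1 : ∀ m ∈ F.support, ∀ i, m i ≤ 1) :
    rename (fun j : Occ F => j.2.1) (disj F) = F := by
  unfold disj
  rw [map_sum]
  conv_rhs => rw [F.as_sum]
  rw [← Finset.sum_coe_sort F.support fun m => monomial m (coeff m F)]
  refine Finset.sum_congr rfl fun x _ => ?_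
  rw [map_mul, map_prod, monomial_eq, rename_C]
  congr 1
  rw [Finsupp.prod, ← Finset.prod_coe_sort (x.1 : W →₀ ℕ).support]
  refine Finset.prod_congr rfl fun w _ => ?_
  have h2 : (x.1 : W →₀ ℕ) w.1 = 1 := by
    have h3 := h1 x.1 x.2 w.1
    have h4 := Finsupp.mem_support_iff.1 w.2
    omega
  rw [rename_X, h2, pow_one]

end field

section nf

variable {K : Type} [Field K]

/-- **The normal form.** -/
theorem exists_nf {n : ℕ} (f : MvPolynomial (Fin n) K) :
    ∃ (N : ℕ) (a₀ : K) (M : Finset (Finset (Fin (N + 1)))) (a : Finset (Fin (N + 1)) → K) (k : ℕ),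
      2 ≤ k ∧ Adm M a ∧ Rep f (path K N + (C a₀ + blocks M a)) k := by
  classical
  have h0 := (rep_stp f 0 0).trans (rep_stp (stp f 0 0) 0 0)
  obtain ⟨κ, m, F, -, ⟨T, hT⟩, hF⟩ := rep_chain (stp (stp f 0 0) 0 0)
  have h2 := h0.trans hF
  set a₀ : K := coeff 0 F with ha₀
  set F₁ : MvPolynomial (Fin m) K := F - C a₀ with hF₁
  have hc0 : coeff 0 F₁ = 0 := by
    rw [hF₁, coeff_sub, coeff_C, if_pos rfl, ha₀, sub_self]
  have hsup : ∀ m ∈ F₁.support, m ∈ F.support ∧ m ≠ 0 := by
    intro w hw
    have hw0 : w ≠ 0 := by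
      rintro rfl
      exact mem_support_iff.1 hw hc0
    refine ⟨?_, hw0⟩
    rw [mem_support_iff] at hw ⊢
    rw [hF₁, coeff_sub, coeff_C, if_neg (fun h => hw0 h.symm), sub_zero] at hw
    exact hw
  have hsf : ∀ m ∈ F₁.support, ∀ i, m i ≤ 1 := fun m hm => (hT m (hsup m hm).1).1
  have hc3 : ∀ m ∈ F₁.support, m.support.card ≤ 3 := by
    intro m hm
    obtain ⟨h3, h4, h5⟩ := hT m (hsup m hm).1
    have h6 : m.support.card = ∑ i, m i := by
      rw [Finset.card_eq_sum_ones]
      have h7 : ∑ i ∈ m.support, 1 = ∑ i ∈ m.support, m i := by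
        refine Finset.sum_congr rfl fun i hi => ?_
        have h8 := h3 i
        have h9 := Finsupp.mem_support_iff.1 hi
        omega
      rw [h7]
      refine Finset.sum_subset (Finset.subset_univ _) fun i _ hi => Finsupp.notMem_support_iff.1 hi
    rw [h6, ← Finset.sum_add_sum_compl T]
    omega
  have hc1 : ∀ m ∈ F₁.support, 1 ≤ m.support.card := by
    intro m hm
    rw [Nat.one_le_iff_ne_zero, Ne, Finset.card_eq_zero, Finsupp.support_eq_empty]
    exact (hsup m hm).2
  have hB : rename (fun j : Occ F₁ => j.2.1) (disj F₁ + C a₀) = F := by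
    rw [map_add, rename_disj hsf, rename_C, hF₁, sub_add_cancel]
  rw [← hB] at h2
  obtain ⟨N, θ, D, _, δ, k', hk', hinj, hrep⟩ := exists_path (by omega) h2
  set S : F₁.support ⊕ D → Type :=
    fun x => Sum.elim (fun e => {w // w ∈ ((e : F₁.support).1 : Fin m →₀ ℕ).support})
      (fun _ => Bool) x with hS
  let inst : ∀ x, Fintype (S x) := fun x => match x with
    | Sum.inl e => (inferInstance : Fintype {w // w ∈ (e.1 : Fin m →₀ ℕ).support})
    | Sum.inr _ => (inferInstance : Fintype Bool)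
  set τ : (Σ x, S x) → Fin (N + 1) := fun x => match x with
    | ⟨Sum.inl e, w⟩ => θ ⟨e, w⟩
    | ⟨Sum.inr d, b⟩ => δ (d, b) with hτ
  have hτinj : Function.Injective τ := by
    rintro ⟨(e | d), y⟩ ⟨(e' | d'), y'⟩ hx
    · have h2 := Sum.inl_injective (hinj (a₁ := Sum.inl ⟨e, y⟩) (a₂ := Sum.inl ⟨e', y'⟩) hx)
      obtain ⟨rfl, h3⟩ := Sigma.mk.inj_iff.1 h2
      rw [eq_of_heq h3]
    · exact absurd (hinj (a₁ := Sum.inl ⟨e, y⟩) (a₂ := Sum.inr (d', y')) hx) (by simp)
    · exact absurd (hinj (a₁ := Sum.inr (d, y)) (a₂ := Sum.inl ⟨e', y'⟩) hx) (by simp)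
    · have h2 := Sum.inr_injective (hinj (a₁ := Sum.inr (d, y)) (a₂ := Sum.inr (d', y')) hx)
      have h3 := congrArg Prod.fst h2
      have h4 := congrArg Prod.snd h2
      simp only at h3 h4
      subst h3 h4
      rfl
  obtain ⟨M, c, hM, hM3⟩ := @exists_blocks K _ (Fin (N + 1)) (F₁.support ⊕ D) _ S inst τ
    hτinj (Sum.elim (fun e => coeff e.1 F₁) fun _ => 1) (by
      rintro (e | d)
      · exact mem_support_iff.1 e.2
      · exact one_ne_zero) (by
    rintro (e | d)
    · have h2 : Fintype.card {w // w ∈ (e.1 : Fin m →₀ ℕ).support} =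
          (e.1 : Fin m →₀ ℕ).support.card := Fintype.card_coe _
      change 1 ≤ Fintype.card {w // w ∈ (e.1 : Fin m →₀ ℕ).support} ∧
        Fintype.card {w // w ∈ (e.1 : Fin m →₀ ℕ).support} ≤ 3
      rw [h2]
      exact ⟨hc1 e.1 e.2, hc3 e.1 e.2⟩
    · have h2 : Fintype.card Bool = 2 := Fintype.card_bool
      change 1 ≤ Fintype.card Bool ∧ Fintype.card Bool ≤ 3
      rw [h2]
      exact ⟨by norm_num, by norm_num⟩)
  refine ⟨N, a₀, M, c, k', hk', hM, ?_⟩
  have h5 : C a₀ + blocks M c = rename θ (disj F₁ + C a₀) + pairSum δ := by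
    have h6 : blocks M c = rename θ (disj F₁) + pairSum δ := by
      rw [hM3, Fintype.sum_sum_type]
      unfold disj
      rw [map_sum]
      congr 1
      · refine Finset.sum_congr rfl fun e _ => ?_
        rw [map_mul, map_prod, rename_C, Sum.elim_inl]
        congr 1
        refine Finset.prod_congr rfl fun w _ => ?_
        rw [rename_X]
      · unfold pairSum
        refine Finset.sum_congr rfl fun d _ => ?_
        rw [Sum.elim_inr, C_1, one_mul]
        change ∏ b : Bool, X (δ (d, b)) = _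
        rw [Fintype.prod_bool, mul_comm]
    rw [h6, map_add, rename_C]
    ring
  rw [h5]
  exact hrep

/-- one more plane -/
theorem nf_ext {β : Type} {c : MvPolynomial β K} {N : ℕ} {a₀ : K}
    {M : Finset (Finset (Fin (N + 1)))} {a : Finset (Fin (N + 1)) → K} {k : ℕ} (hM : Adm M a)
    (h : Rep c (path K N + (C a₀ + blocks M a)) k) :
    ∃ (M' : Finset (Finset (Fin (N + 2 + 1)))) (a' : Finset (Fin (N + 2 + 1)) → K), Adm M' a' ∧
      Rep c (path K (N + 2) + (C a₀ + blocks M' a')) (k + 1) := by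
  obtain ⟨M', a', h1, h2⟩ := blocks_rename (Fin.castLE (by omega : N + 1 ≤ N + 2 + 1))
    (Fin.castLE_injective _) M a hM
  refine ⟨M', a', h1, ?_⟩
  have h3 := path_ext h
  rw [map_add, rename_C, ← h2] at h3
  exact h3

end nf

end Pool.Agent.K6.H7.UG
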